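import Pool.Agent.K1H27.BN.Stm

set_option autoImplicit false

namespace Pool.Agent.K1H74.BN

open MeasureTheory Set Metric Filter Topology Polynomial
open scoped ENNReal NNReal

/-- circle inequality for the truncated logarithm -/
theorem circ (Q : ℂ[X]) (hQ : Q.eval 0 ≠ 0) (ε : ℝ) (hε : 0 < ε) :
    2 * Real.pi * Real.log ‖Q.eval 0‖ ≤
      ∫ θ in (0:ℝ)..(2 * Real.pi), Real.log (max ‖Q.eval (circleMap 0 1 θ)‖ ε) := by
  have hQ0 : Q ≠ 0 := by rintro rfl; simp at hQ
  have h1 : Real.log ‖Q.eval 0‖ ≤ Q.logMahlerMeasure := by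
    rw [Polynomial.logMahlerMeasure_eq_log_MahlerMeasure]
    apply Real.log_le_log (norm_pos_iff.2 hQ)
    have := Polynomial.norm_coeff_le_choose_mul_mahlerMeasure 0 Q
    simpa [Polynomial.coeff_zero_eq_eval_zero] using this
  have h2 : 2 * Real.pi * Q.logMahlerMeasure =
      ∫ θ in (0:ℝ)..(2 * Real.pi), Real.log ‖Q.eval (circleMap 0 1 θ)‖ := by
    rw [Polynomial.logMahlerMeasure_def, Real.circleAverage_def, smul_eq_mul, ← mul_assoc,
      mul_inv_cancel₀ (by positivity), one_mul]
  have hpi : (0:ℝ) < 2 * Real.pi := by positivity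
  calc 2 * Real.pi * Real.log ‖Q.eval 0‖ ≤ 2 * Real.pi * Q.logMahlerMeasure := by
        exact mul_le_mul_of_nonneg_left h1 hpi.le
    _ = _ := h2
    _ ≤ _ := by
        apply intervalIntegral.integral_mono_ae hpi.le Q.intervalIntegrable_mahlerMeasure
        · apply Continuous.intervalIntegrable
          apply Continuous.log
          · exact ((Q.continuous.comp (continuous_circleMap 0 1)).norm).max continuous_const
          · intro x
            exact (lt_of_lt_of_le hε (le_max_right _ _)).ne'
        · have hfin : ((circleMap 0 1) ⁻¹' (↑Q.roots.toFinset : Set ℂ)).Countable := by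
            apply Set.Countable.preimage_circleMap
            · exact (Finset.countable_toSet _)
            · exact one_ne_zero
          have := hfin.measure_zero volume
          rw [Filter.EventuallyLE, ae_iff]
          refine measure_mono_null ?_ this
          intro x hx
          simp only [Set.mem_ofPred_eq, not_le] at hx
          simp only [mem_preimage, Finset.mem_coe, Multiset.mem_toFinset]
          rw [Polynomial.mem_roots hQ0, Polynomial.IsRoot.def]
          by_contra hne
          apply absurd hx
          push Not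
          exact Real.log_le_log (norm_pos_iff.2 hne) (le_max_left _ _)

/-- rotations preserve integrals over balls -/
theorem rot (ρ : ℝ) (f : ℂ → ℝ) (w : Circle) :
    ∫ z in ball (0:ℂ) ρ, f (w * z) = ∫ z in ball (0:ℂ) ρ, f z := by
  have hm : MeasurePreserving (rotation w) volume volume :=
    LinearIsometryEquiv.measurePreserving _
  have he : MeasurableEmbedding (rotation w) :=
    (rotation w).toHomeomorph.toMeasurableEquiv.measurableEmbedding
  have := hm.setIntegral_preimage_emb he f (ball (0:ℂ) ρ)
  rw [← this]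
  have hb : (rotation w) ⁻¹' ball (0:ℂ) ρ = ball (0:ℂ) ρ := by
    ext z
    rw [mem_preimage, mem_ball_zero_iff, mem_ball_zero_iff, LinearIsometryEquiv.norm_map]
  rw [hb]
  simp [rotation_apply]

/-- mean value inequality on the ball for the truncated logarithm -/
theorem ballmean (P : ℂ[X]) (hP : P.eval 0 ≠ 0) (ε : ℝ) (hε : 0 < ε) (ρ : ℝ) :
    (volume.real (ball (0:ℂ) ρ)) * Real.log ‖P.eval 0‖ ≤
      ∫ z in ball (0:ℂ) ρ, Real.log (max ‖P.eval z‖ ε) := by
  have hpi : (0:ℝ) < 2 * Real.pi := by positivity
  set F : ℝ → ℂ → ℝ := fun θ z => Real.log (max ‖P.eval (circleMap 0 1 θ * z)‖ ε) with hF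
  have hcont : Continuous (Function.uncurry F) := by
    rw [hF]
    apply Continuous.log
    · refine Continuous.max ?_ continuous_const
      refine (P.continuous.comp ?_).norm
      exact ((continuous_circleMap 0 1).comp continuous_fst).mul continuous_snd
    · intro x
      exact (lt_of_lt_of_le hε (le_max_right _ _)).ne'
  have hint : Integrable (Function.uncurry F)
      ((volume.restrict (Set.uIoc 0 (2 * Real.pi))).prod (volume.restrict (ball (0:ℂ) ρ))) := by
    rw [Measure.prod_restrict]
    have h1 : IntegrableOn (Function.uncurry F)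
        (Set.uIcc 0 (2 * Real.pi) ×ˢ closedBall (0:ℂ) ρ) (volume.prod volume) := by
      apply hcont.continuousOn.integrableOn_compact
      exact isCompact_uIcc.prod (isCompact_closedBall _ _)
    exact h1.mono_set (prod_mono Set.uIoc_subset_uIcc ball_subset_closedBall)
  have hsw := MeasureTheory.intervalIntegral_integral_swap hint
  have hl : ∫ θ in (0:ℝ)..(2 * Real.pi), ∫ z in ball (0:ℂ) ρ, F θ z =
      2 * Real.pi * ∫ z in ball (0:ℂ) ρ, Real.log (max ‖P.eval z‖ ε) := by
    have : ∀ θ : ℝ, ∫ z in ball (0:ℂ) ρ, F θ z =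
        ∫ z in ball (0:ℂ) ρ, Real.log (max ‖P.eval z‖ ε) := by
      intro θ
      have := rot ρ (fun z => Real.log (max ‖P.eval z‖ ε)) (Circle.exp θ)
      rw [← this]
      simp [hF, circleMap]
    simp [this]
  have hr : 2 * Real.pi * ((volume.real (ball (0:ℂ) ρ)) * Real.log ‖P.eval 0‖) ≤
      ∫ z in ball (0:ℂ) ρ, ∫ θ in (0:ℝ)..(2 * Real.pi), F θ z := by
    have h1 : ∫ z in ball (0:ℂ) ρ, (2 * Real.pi * Real.log ‖P.eval 0‖) =
        2 * Real.pi * ((volume.real (ball (0:ℂ) ρ)) * Real.log ‖P.eval 0‖) := by
      rw [setIntegral_const, smul_eq_mul]; ring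
    rw [← h1]
    apply integral_mono
    · exact integrableOn_const measure_ball_lt_top.ne
    · have := hint.swap.integral_prod_left
      have h2 : (fun z => ∫ θ in (0:ℝ)..(2 * Real.pi), F θ z) = fun z =>
          ∫ θ, F θ z ∂(volume.restrict (Set.uIoc 0 (2 * Real.pi))) := by
        funext z
        rw [intervalIntegral.integral_of_le hpi.le, Set.uIoc_of_le hpi.le]
      rw [h2]
      exact this
    · intro z
      have := circ (P.comp (C z * X)) (by simpa using hP) ε hε
      simp only [eval_comp, eval_mul, eval_C, eval_X, mul_zero] at this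
      simpa [hF, mul_comm] using this
  rw [← hsw, hl] at hr
  exact le_of_mul_le_mul_left hr hpi

open Pool.Agent.K1H27.BN in
theorem t_JEN : S_JEN := by
  intro c ρ u hρ hu hfin
  have hBfin : volume (ball c ρ) ≠ ⊤ := measure_ball_lt_top.ne
  have hB0 : volume (ball c ρ) ≠ 0 := (measure_ball_pos volume c hρ).ne'
  set μ : Measure ℂ := volume.restrict (ball c ρ) with hμ
  have : IsFiniteMeasure μ := ⟨by rw [hμ, Measure.restrict_apply_univ]; exact measure_ball_lt_top⟩
  have : NeZero μ := ⟨by rw [hμ, Ne, Measure.restrict_eq_zero]; exact hB0⟩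
  set V : ℝ := μ.real univ with hV
  have hV0 : 0 < V := by
    rw [hV, hμ, measureReal_restrict_apply_univ]
    exact ENNReal.toReal_pos hB0 hBfin
  have hui : Integrable (fun z => (u z).toReal) μ :=
    integrable_toReal_of_lintegral_ne_top hu.aemeasurable hfin
  have htop : ∀ᵐ z ∂μ, u z ≠ ⊤ := by
    filter_upwards [ae_lt_top hu hfin] with z hz using hz.ne
  have hwm : Measurable (wu u) := by
    unfold wu
    refine Measurable.ite (hu (measurableSet_singleton ⊤)) measurable_const ?_
    exact Real.measurable_exp.comp hu.ennreal_toReal.neg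
  have hw0 : ∀ z, 0 ≤ wu u z := by
    intro z; unfold wu; split_ifs
    · exact le_rfl
    · exact (Real.exp_pos _).le
  have hw1 : ∀ z, wu u z ≤ 1 := by
    intro z; unfold wu; split_ifs
    · exact zero_le_one
    · exact Real.exp_le_one_iff.2 (neg_nonpos.2 ENNReal.toReal_nonneg)
  refine ⟨V * Real.exp (-(⨍ z, (u z).toReal ∂μ)), by positivity, ?_⟩
  intro P
  have hcB : ∀ f : ℂ → ℝ, Continuous f → IntegrableOn f (ball c ρ) := fun f hf =>
    (hf.continuousOn.integrableOn_compact (isCompact_closedBall c ρ)).mono_set ball_subset_closedBall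
  by_cases hP : P.eval 0 = 0
  · rw [hP, norm_zero, mul_zero]
    exact integral_nonneg fun z => mul_nonneg (norm_nonneg _) (hw0 z)
  -- integrability of the products
  have hPc : Continuous fun z : ℂ => ‖P.eval (z - c)‖ :=
    (P.continuous.comp (continuous_id.sub continuous_const)).norm
  have hPw : Integrable (fun z => ‖P.eval (z - c)‖ * wu u z) μ := by
    refine Integrable.mono' (hcB _ hPc) (hPc.measurable.mul hwm).aestronglyMeasurable ?_
    refine Eventually.of_forall fun z => ?_
    rw [norm_mul, norm_norm, Real.norm_of_nonneg (hw0 z)]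
    exact mul_le_of_le_one_right (norm_nonneg _) (hw1 z)
  have hwi : Integrable (wu u) μ := by
    refine Integrable.mono' (integrable_const (1:ℝ)) hwm.aestronglyMeasurable ?_
    refine Eventually.of_forall fun z => ?_
    rw [Real.norm_of_nonneg (hw0 z)]
    exact hw1 z
  have key : ∀ ε : ℝ, 0 < ε → V * Real.exp (-(⨍ z, (u z).toReal ∂μ)) * ‖P.eval 0‖ ≤
      (∫ z in ball c ρ, ‖P.eval (z - c)‖ * wu u z) + ε * V := by
    intro ε hε
    set f : ℂ → ℝ := fun z => Real.log (max ‖P.eval (z - c)‖ ε) with hf
    have hfc : Continuous f := by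
      rw [hf]
      apply Continuous.log
      · exact hPc.max continuous_const
      · intro x
        exact (lt_of_lt_of_le hε (le_max_right _ _)).ne'
    have hfi : Integrable f μ := hcB f hfc
    have hexp : ∀ᵐ z ∂μ, Real.exp (f z - (u z).toReal) =
        max ‖P.eval (z - c)‖ ε * wu u z := by
      filter_upwards [htop] with z hz
      rw [sub_eq_add_neg, Real.exp_add, hf]
      simp only
      rw [Real.exp_log (lt_of_lt_of_le hε (le_max_right _ _)), wu, if_neg hz]
    have hmi : Integrable (fun z => max ‖P.eval (z - c)‖ ε * wu u z) μ := by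
      have hmc : Continuous fun z : ℂ => max ‖P.eval (z - c)‖ ε := hPc.max continuous_const
      refine Integrable.mono' (hcB _ hmc) (hmc.measurable.mul hwm).aestronglyMeasurable ?_
      refine Eventually.of_forall fun z => ?_
      have h0 : 0 ≤ max ‖P.eval (z - c)‖ ε := (norm_nonneg _).trans (le_max_left _ _)
      rw [norm_mul, Real.norm_of_nonneg h0, Real.norm_of_nonneg (hw0 z)]
      exact mul_le_of_le_one_right h0 (hw1 z)
    have hgi : Integrable (Real.exp ∘ fun z => f z - (u z).toReal) μ := by
      refine hmi.congr ?_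
      filter_upwards [hexp] with z hz using hz.symm
    have hj := convexOn_exp.map_average_le (μ := μ) Real.continuous_exp.continuousOn isClosed_univ
      (Eventually.of_forall fun _ => mem_univ _) (hfi.sub hui) hgi
    have hav : (⨍ z, (f z - (u z).toReal) ∂μ) = (⨍ z, f z ∂μ) - ⨍ z, (u z).toReal ∂μ := by
      simp only [average_eq, smul_eq_mul]
      rw [integral_sub hfi hui]; ring
    have hmean : Real.log ‖P.eval 0‖ ≤ ⨍ z, f z ∂μ := by
      have hb := ballmean P hP ε hε ρ
      have htr : ∫ z in ball c ρ, f z = ∫ z in ball (0:ℂ) ρ, Real.log (max ‖P.eval z‖ ε) := by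
        have hm : MeasurePreserving (fun z : ℂ => z - c) volume volume :=
          measurePreserving_sub_right volume c
        have he : MeasurableEmbedding (fun z : ℂ => z - c) :=
          (Homeomorph.subRight c).measurableEmbedding
        have := hm.setIntegral_preimage_emb he (fun z => Real.log (max ‖P.eval z‖ ε))
          (ball (0:ℂ) ρ)
        rw [← this]
        have hbb : (fun z : ℂ => z - c) ⁻¹' ball (0:ℂ) ρ = ball c ρ := by
          ext z
          simp [mem_ball, dist_eq_norm]
        rw [hbb]
      have hvv : V = volume.real (ball (0:ℂ) ρ) := by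
        rw [hV, hμ, measureReal_restrict_apply_univ, measureReal_def, measureReal_def]
        rw [Measure.addHaar_ball_center]
      rw [average_eq, smul_eq_mul, ← hV]
      rw [le_inv_mul_iff₀ hV0, hvv, htr]
      exact hb
    have h1 : ‖P.eval 0‖ * Real.exp (-(⨍ z, (u z).toReal ∂μ)) ≤
        ⨍ z, Real.exp (f z - (u z).toReal) ∂μ := by
      refine le_trans ?_ hj
      have : (⨍ z, (f z - (u z).toReal) ∂μ) =
        ⨍ z, (f - fun z => (u z).toReal) z ∂μ := rfl
      rw [hav] at this
      rw [← this, sub_eq_add_neg, Real.exp_add]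
      apply mul_le_mul_of_nonneg_right _ (Real.exp_pos _).le
      rw [← Real.log_le_iff_le_exp (norm_pos_iff.2 hP)]
      exact hmean
    rw [average_eq μ (fun z => Real.exp (f z - (u z).toReal)), smul_eq_mul, ← hV,
      integral_congr_ae hexp, le_inv_mul_iff₀ hV0] at h1
    have h2 : ∫ z, max ‖P.eval (z - c)‖ ε * wu u z ∂μ ≤
        ∫ z, (‖P.eval (z - c)‖ * wu u z + ε) ∂μ := by
      apply integral_mono hmi (hPw.add (integrable_const ε))
      intro z
      simp only
      have hle : max ‖P.eval (z - c)‖ ε ≤ ‖P.eval (z - c)‖ + ε :=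
        max_le (by linarith) (by linarith [norm_nonneg (P.eval (z - c))])
      calc max ‖P.eval (z - c)‖ ε * wu u z ≤ (‖P.eval (z - c)‖ + ε) * wu u z :=
            mul_le_mul_of_nonneg_right hle (hw0 z)
        _ = ‖P.eval (z - c)‖ * wu u z + ε * wu u z := by ring
        _ ≤ _ := by
            have := mul_le_of_le_one_right hε.le (hw1 z)
            simp only [Pi.add_apply]
            linarith
    rw [integral_add hPw (integrable_const ε), integral_const, smul_eq_mul, ← hV] at h2
    calc V * Real.exp (-(⨍ z, (u z).toReal ∂μ)) * ‖P.eval 0‖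
        = V * (‖P.eval 0‖ * Real.exp (-(⨍ z, (u z).toReal ∂μ))) := by ring
      _ ≤ _ := h1
      _ ≤ _ := h2
      _ = _ := by rw [mul_comm V ε]
  refine le_of_forall_pos_le_add fun ε hε => ?_
  have := key (ε / V) (by positivity)
  rwa [div_mul_cancel₀ _ hV0.ne'] at this

end Pool.Agent.K1H74.BN
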